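import Pool.Agent.H4.Joh.Main
import Pool.Agent.H4.Joh.ExcA
import Pool.Agent.H4.Joh.ExcB
import Pool.Agent.H4.Joh.Graph

/-!
# MP_785afb_co, Q1: every 2-monophonic generalized Johnson graph is strongly 2-monophonic

`genJohnson n r i` is the generalized Johnson graph `J(n,r,i)`, `monophonicNumber` the monophonic
number, `IsMonophonic G S` says that every vertex lies on an induced path between two (possibly
equal) members of `S`; these are defined in `Pool/Agent/H4/Joh/Graph.lean`.
-/

namespace Pool.Agent.Results.MP_785afb_co.StronglyMonophonic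

open Pool.Agent.H4.Joh Finset

/-- a closed path is trivial -/
theorem interval_self {V : Type*} {G : SimpleGraph V} {u w : V} (h : w ∈ monoInterval G u u) :
    w = u := by
  obtain ⟨p, hp, -, hw⟩ := h
  have hp' := SimpleGraph.Walk.isPath_iff_eq_nil.mp hp
  rw [hp'] at hw
  simpa using hw

theorem self_mem_interval {V : Type*} (G : SimpleGraph V) (u : V) : u ∈ monoInterval G u u :=
  ⟨SimpleGraph.Walk.nil, SimpleGraph.Walk.IsPath.nil, by
    intro a ha b hb hab
    simp only [SimpleGraph.Walk.support_nil, List.mem_singleton] at ha hb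
    subst ha hb
    exact absurd hab (G.irrefl), by simp⟩

/-- in a graph without edges the intervals are trivial -/
theorem interval_edgeless {V : Type*} {G : SimpleGraph V} (hG : ∀ a b, ¬ G.Adj a b) {u v w : V}
    (h : w ∈ monoInterval G u v) : w = u := by
  obtain ⟨p, hp, -, hw⟩ := h
  cases p with
  | nil => simpa using hw
  | cons hab _ => exact absurd hab (hG _ _)

/-- a monophonic set of size two -/
theorem exists_pair_of_number {V : Type*} {G : SimpleGraph V} (h : monophonicNumber G = 2) :
    ∃ u v : V, u ≠ v ∧ ∀ w, w ∈ monoInterval G u u ∨ w ∈ monoInterval G u v ∨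
      w ∈ monoInterval G v u ∨ w ∈ monoInterval G v v := by
  classical
  have hne : {k | ∃ S : Finset V, S.card = k ∧ IsMonophonic G (S : Set V)}.Nonempty := by
    by_contra hcon
    rw [Set.not_nonempty_iff_eq_empty] at hcon
    unfold monophonicNumber at h
    rw [hcon] at h
    simp at h
  have hmem := Nat.sInf_mem hne
  have h2 : sInf {k | ∃ S : Finset V, S.card = k ∧ IsMonophonic G (S : Set V)} = 2 := h
  rw [h2] at hmem
  obtain ⟨S, hS, hmono⟩ := hmem
  obtain ⟨u, v, huv, rfl⟩ := card_eq_two.mp hS
  refine ⟨u, v, huv, fun w => ?_⟩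
  obtain ⟨x, hx, y, hy, hw⟩ := hmono w
  simp only [coe_insert, coe_singleton, Set.mem_insert_iff, Set.mem_singleton_iff] at hx hy
  rcases hx with rfl | rfl <;> rcases hy with rfl | rfl
  · exact Or.inl hw
  · exact Or.inr (Or.inl hw)
  · exact Or.inr (Or.inr (Or.inl hw))
  · exact Or.inr (Or.inr (Or.inr hw))

theorem bad_of_exc {i s t : ℕ} (he : Exc i s t) {α : Type*} [DecidableEq α] : Bad α i s t := by
  obtain ⟨ht, he⟩ := he
  rcases he with ⟨rfl, rfl⟩ | ⟨rfl, rfl⟩ | ⟨rfl, rfl | rfl⟩
  · exact exc_match ht
  · exact exc_twin ht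
  · rcases Nat.eq_zero_or_pos s with rfl | hs
    · exact exc_match ht
    · exact exc_kn2 hs
  · rcases Nat.eq_zero_or_pos i with rfl | hi
    · exact exc_match ht
    · exact (exc_kn2 hi).compl

/-- **Q1**: every 2-monophonic generalized Johnson graph is strongly 2-monophonic (for all `n`, `r`,
`i`; the restrictions `i ≤ r ≤ n` are not needed). -/
theorem result (n r i : ℕ) (hm : monophonicNumber (genJohnson n r i) = 2) :
    ∀ x y : {A : Finset (Fin n) // A.card = r}, x ≠ y → ¬ (genJohnson n r i).Adj x y →
      IsMonophonic (genJohnson n r i) {x, y} := by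
  intro x y hxy hadj w
  obtain ⟨u, v, huv, hcov⟩ := exists_pair_of_number hm
  by_cases hwx : w = x
  · exact ⟨x, by simp, x, by simp, by rw [hwx]; exact self_mem_interval _ _⟩
  by_cases hwy : w = y
  · exact ⟨y, by simp, y, by simp, by rw [hwy]; exact self_mem_interval _ _⟩
  by_cases hedge : ∀ a b, ¬ (genJohnson n r i).Adj a b
  · -- no edges: only two vertices
    exfalso
    have hall : ∀ w, w = u ∨ w = v := by
      intro w
      rcases hcov w with h | h | h | h
      · exact Or.inl (interval_edgeless hedge h)
      · exact Or.inl (interval_edgeless hedge h)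
      · exact Or.inr (interval_edgeless hedge h)
      · exact Or.inr (interval_edgeless hedge h)
    rcases hall x with h1 | h1 <;> rcases hall y with h2 | h2 <;> rcases hall w with h3 | h3 <;>
      simp_all
  · -- there is an edge, so `r = i + t`, `n = 2t + i + s` with `t ≥ 1`
    push Not at hedge
    obtain ⟨a, b, hab⟩ := hedge
    have hab1 : a.1 ≠ b.1 := fun h => hab.1 (Subtype.ext h)
    have hab2 : (a.1 ∩ b.1).card = i := hab.2
    have hlt : i < r := by
      rcases Nat.lt_or_ge i r with h | h
      · exact h
      · exfalso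
        apply hab1
        have e1 : a.1 ∩ b.1 = a.1 := eq_of_subset_of_card_le inter_subset_left (by
          rw [hab2, a.2]; exact h)
        have e2 : a.1 ∩ b.1 = b.1 := eq_of_subset_of_card_le inter_subset_right (by
          rw [hab2, b.2]; exact h)
        rw [← e1]; exact e2
    have hn : 2 * r ≤ n + i := by
      have e1 := card_union_add_card_inter a.1 b.1
      have e2 : (a.1 ∪ b.1).card ≤ n := by
        have := card_le_univ (a.1 ∪ b.1)
        simpa using this
      have e3 := a.2
      have e4 := b.2
      omega
    obtain ⟨t, ht⟩ : ∃ t, r = i + t := ⟨r - i, by omega⟩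
    obtain ⟨s, hs⟩ : ∃ s, n = 2 * t + i + s := ⟨n - 2 * t - i, by omega⟩
    have ht1 : 1 ≤ t := by omega
    have hN : (Finset.univ : Finset (Fin n)).card = 2 * t + i + s := by simpa using hs
    have hV : ∀ z : {A : Finset (Fin n) // A.card = r}, Vtx Finset.univ i t z.1 := by
      intro z
      exact ⟨subset_univ _, by rw [z.2]; exact ht⟩
    by_cases hexc : Exc i s t
    · -- exceptional parameters: the monophonic number is not two
      exfalso
      obtain ⟨z, hz, hzu, hzv, hno⟩ := bad_of_exc hexc Finset.univ u.1 v.1 hN (hV u) (hV v)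
        (fun h => huv (Subtype.ext h))
      let z' : {A : Finset (Fin n) // A.card = r} := ⟨z, by rw [hz.2]; exact ht.symm⟩
      rcases hcov z' with h | h | h | h
      · exact hzu (congrArg Subtype.val (interval_self h))
      · exact hno (indPath_of_mem_interval ht ht1 u v z' h)
      · exact hno (indPath_of_mem_interval ht ht1 v u z' h).swap
      · exact hzv (congrArg Subtype.val (interval_self h))
    · have hgood := good_main (α := Fin n) ht1 hexc
      refine ⟨x, by simp, y, by simp, ?_⟩
      refine mem_interval_of_indPath ht ht1 x y w (hgood _ _ _ _ ?_)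
      refine ⟨hN, ht1, hV x, hV y, hV w, fun h => hxy (Subtype.ext h), fun h => hwx (Subtype.ext h),
        fun h => hwy (Subtype.ext h), ?_⟩
      intro h
      exact hadj ⟨hxy, h⟩

end Pool.Agent.Results.MP_785afb_co.StronglyMonophonic
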